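import Pool.Agent.Helper98.WS.St
import Pool.Agent.Helper46.LP.Fin2

/-!
# MP_274814_nt: pi and all values of the Gamma function at rational numbers, final statement
-/

set_option autoImplicit false

namespace Pool.Agent.Helper98.WS

open Set Module Pool.Agent.Helper24.LU Pool.Agent.Helper24.GammaTr Pool.Agent.Helper17.LR
open Pool.Agent.Helper24.CR Pool.Agent.Helper24.LRDefs
open Pool.Agent.Helper24.GammaDist (IsOddDist)

/-- The field generated by the ratios at the elements of `X`. -/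
noncomputable def KX (X : Set ℚ) : IntermediateField ℚ ℂ :=
  IntermediateField.adjoin ℚ {z : ℂ | ∃ x ∈ X, z = ((R x : ℝ) : ℂ)}

theorem KX_alg_iff (X : Set ℚ) (z : ℂ) :
    IsAlgebraic (KX X) z ↔ IsAlgebraic (Algebra.adjoin ℚ (RS X)) z := by
  have h1 : KX X = IntermediateField.adjoin ℚ (RS X) := by
    unfold KX RS
    congr 1
    ext w
    constructor
    · rintro ⟨x, hx, rfl⟩
      exact ⟨x, hx, rfl⟩
    · rintro ⟨x, hx, rfl⟩
      exact ⟨x, hx, rfl⟩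
  rw [h1]
  exact ⟨alg_adjoin _, adjoin_alg _⟩

/-- The structure theorem at the exceptional level. -/
theorem structure_at (hall : ∀ q : ℕ, 2 < q → HasInd q (q.totient / 2)) (f : ℕ) (hf0 : 0 < f)
    (hf : ∀ q : ℕ, 0 < q → (PA q ↔ f ∣ q)) :
    ∃ (n : ℕ) (m : Fin n → ℕ → ℤ), 0 < n ∧
      AlgebraicIndependent ℚ (fun i => ∏ a ∈ Finset.Ico 1 f, R ((a : ℚ) / f) ^ m i a) ∧
      IsAlgebraic (IntermediateField.adjoin ℚ (range fun i =>
        ((∏ a ∈ Finset.Ico 1 f, R ((a : ℚ) / f) ^ m i a : ℝ) : ℂ))) (Real.pi : ℂ) ∧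
      ∀ X : Set ℚ, (∀ x ∈ X, 0 < x ∧ x < 1) →
        (IsAlgebraic (KX X) (Real.pi : ℂ) ↔
          ∀ i, IsAlgebraic (KX X) ((∏ a ∈ Finset.Ico 1 f, R ((a : ℚ) / f) ^ m i a : ℝ) : ℂ)) := by
  have hPf : PA f := (hf f hf0).2 dvd_rfl
  rcases structure_thm hall with h | ⟨f', h1, h2, n, m, h3, h4, h6, h5⟩
  · exfalso
    apply h (Xq f) Xq_pos
    rw [PE_iff _ Xq_pos, HS_Xq f hf0, ← PA_iff_Lv f hf0]
    exact hPf
  · have e1 : f ∣ f' := (hf f' (by omega)).1 ((h2 f' (by omega)).2 dvd_rfl)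
    have e2 : f' ∣ f := (h2 f hf0).1 hPf
    have e3 : f' = f := Nat.dvd_antisymm e2 e1
    subst e3
    refine ⟨n, m, h3, h4, adjoin_alg _ h6, fun X hX => ?_⟩
    rw [KX_alg_iff, h5 X hX]
    exact forall_congr' fun i => (KX_alg_iff X _).symm

/-- **Final assembly.** -/
theorem main (hall : ∀ q : ℕ, 2 < q → HasInd q (q.totient / 2)) :
    (∃ N : ℕ, N ≠ 1 ∧ N ≠ 2 ∧
      (∀ q : ℕ, 2 < q → ¬ N ∣ q →
        Algebra.trdeg ℚ (Fall q) = ((1 + q.totient / 2 : ℕ) : Cardinal) ∧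
        Algebra.trdeg ℚ (F q) = ((1 + gd q : ℕ) : Cardinal) ∧
        ∀ S : Finset ℕ, (∀ a ∈ S, 1 ≤ a ∧ a < q) → (AlgebraicIndependent ℚ (pg q S) ↔
          ∀ m : ℕ → ℤ, (∀ f : ℚ → ℝ, IsOddDist f → ∑ a ∈ S, (m a : ℝ) * f ((a : ℚ) / q) = 0) →
            ∀ a ∈ S, m a = 0)) ∧
      (∀ q : ℕ, 2 < q → N ∣ q →
        Algebra.trdeg ℚ (Fall q) = ((q.totient / 2 : ℕ) : Cardinal)) ∧
      (∀ q : ℕ, 2 < q →
        (((1 + q.totient / 2 : ℕ) : Cardinal) ≤ Algebra.trdeg ℚ (F q) ↔ ¬ N ∣ q ∧ HP q)) ∧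
      (0 < N → ∃ (n : ℕ) (m : Fin n → ℕ → ℤ), 0 < n ∧
        AlgebraicIndependent ℚ (fun i => ∏ a ∈ Finset.Ico 1 N, R ((a : ℚ) / N) ^ m i a) ∧
        IsAlgebraic (IntermediateField.adjoin ℚ (range fun i =>
          ((∏ a ∈ Finset.Ico 1 N, R ((a : ℚ) / N) ^ m i a : ℝ) : ℂ))) (Real.pi : ℂ) ∧
        ∀ X : Set ℚ, (∀ x ∈ X, 0 < x ∧ x < 1) →
          (IsAlgebraic (KX X) (Real.pi : ℂ) ↔
            ∀ i, IsAlgebraic (KX X)
              ((∏ a ∈ Finset.Ico 1 N, R ((a : ℚ) / N) ^ m i a : ℝ) : ℂ)))) ∧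
    (∀ x y : ℚ, 0 < x → x < y → y < 1 / 2 → ¬ (x = 1 / 6 ∧ y = 1 / 3) →
      AlgebraicIndependent ℚ ![Real.pi, Real.Gamma (x : ℝ)] ∨
        AlgebraicIndependent ℚ ![Real.pi, Real.Gamma (y : ℝ)]) := by
  refine ⟨?_, fun x y h1 h2 h3 h4 => one_exception hall x y h1 h2 h3 h4⟩
  obtain ⟨f, h1, h2, h⟩ := exists_level hall
  have hF : ∀ q : ℕ, 2 < q →
      (1 + ((q.totient / 2 : ℕ) : Cardinal) ≤ Algebra.trdeg ℚ (Fall q) ↔ ¬ f ∣ q) := by
    intro q hq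
    have h3 := full_iff q hq (hall q hq)
    push_cast at h3
    rw [h3, h q (by omega)]
  refine ⟨f, h1, h2, fun q hq hf => ⟨?_, ?_, ?_⟩, fun q hq hf => ?_, fun q hq => ?_,
    fun hf0 => structure_at hall f hf0 h⟩
  · exact le_antisymm (Pool.Agent.Helper46.LP.Fall_le q hq) (full_of q hq (hall q hq)
      (fun hp => hf ((h q (by omega)).1 hp)))
  · exact trdeg_F_eq q hq (hall q hq) (fun hp => hf ((h q (by omega)).1 hp))
  · intro S hS
    exact Pool.Agent.Helper46.LP.indep_iff_dist q hq (hall q hq)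
      (fun hp => hf ((h q (by omega)).1 hp)) S hS
  · exact le_antisymm (le_of_PA q hq ((h q (by omega)).2 hf))
      (Pool.Agent.Helper46.LP.Fall_ge q (hall q hq))
  · have h3 := Pool.Agent.Helper24.CR.literal_iff _ hF q hq
    push_cast
    exact h3

end Pool.Agent.Helper98.WS
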