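import Pool.Agent.Helper98.WS.Sp
import Pool.Agent.Helper24.CR.Al

/-!
# MP_274814_nt: the smallest space of Gamma monomials over which pi is algebraic, existence
-/

set_option autoImplicit false

namespace Pool.Agent.Helper98.WS

open Set Module Pool.Agent.Helper24.LU Pool.Agent.Helper24.GammaTr Pool.Agent.Helper17.LR

/-- The ratio at a rational number. -/
noncomputable def R (x : ℚ) : ℝ := Real.Gamma x / Real.Gamma (1 - x)

theorem R_eq (q a : ℕ) : R ((a : ℚ) / q) = Rr q a := by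
  unfold R Rr
  push_cast
  rfl

theorem exists_frac {x : ℚ} (h0 : 0 < x) (h1 : x < 1) :
    ∃ q a : ℕ, 1 ≤ a ∧ a < q ∧ x = (a : ℚ) / q := by
  have hnum : 0 < x.num := Rat.num_pos.2 h0
  have hden : (0 : ℚ) < x.den := by exact_mod_cast x.den_pos
  have hx : x = ((x.num.toNat : ℕ) : ℚ) / (x.den : ℚ) := by
    have h2 : ((x.num.toNat : ℕ) : ℚ) = (x.num : ℚ) := by
      exact_mod_cast Int.toNat_of_nonneg hnum.le
    rw [h2]
    exact (Rat.num_div_den x).symm
  refine ⟨x.den, x.num.toNat, by omega, ?_, hx⟩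
  rw [hx, div_lt_one hden] at h1
  exact_mod_cast h1

theorem H_R (K : IntermediateField ℚ ℂ) {x : ℚ} (h0 : 0 < x) (h1 : x < 1) :
    H K x = 0 ↔ IsAlgebraic K ((R x : ℝ) : ℂ) := by
  obtain ⟨q, a, ha, haq, rfl⟩ := exists_frac h0 h1
  rw [R_eq]
  exact H_zero_iff K a q ha haq

/-- The space spanned by the classes of the ratios at the elements of `X`. -/
noncomputable def HS (X : Set ℚ) : Submodule ℚ V := Submodule.span ℚ (H ⊥ '' X)

/-- The set of the ratios. -/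
noncomputable def RS (X : Set ℚ) : Set ℂ := (fun x : ℚ => ((R x : ℝ) : ℂ)) '' X

theorem E_alg_RS (X : Set ℚ) (hX : ∀ x ∈ X, 0 < x ∧ x < 1) {v : V} (hv : v ∈ HS X) :
    IsAlgebraic (Algebra.adjoin ℚ (RS X)) (E v) := by
  apply alg_adjoin
  refine alg_span (H ⊥ '' X) (IntermediateField.adjoin ℚ (RS X)) ?_ hv
  rintro _ ⟨x, hx, rfl⟩
  rw [E_alg_iff, qm_H, H_R _ (hX x hx).1 (hX x hx).2]
  exact isAlg_of_mem _ (IntermediateField.subset_adjoin ℚ _ (mem_image_of_mem _ hx))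

theorem PE_iff (X : Set ℚ) (hX : ∀ x ∈ X, 0 < x ∧ x < 1) :
    IsAlgebraic (Algebra.adjoin ℚ (RS X)) (Real.pi : ℂ) ↔ PE (HS X : Set V) := by
  constructor
  · intro h
    refine cl_trans ?_ h
    rintro _ ⟨x, hx, rfl⟩
    apply alg_adjoin
    set K := IntermediateField.adjoin ℚ (E '' (HS X : Set V)) with hK
    change IsAlgebraic K ((R x : ℝ) : ℂ)
    rw [← H_R K (hX x hx).1 (hX x hx).2, ← qm_H, ← E_alg_iff]
    exact isAlg_of_mem K (IntermediateField.subset_adjoin ℚ _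
      (mem_image_of_mem E (Submodule.subset_span (mem_image_of_mem _ hx))))
  · intro h
    refine cl_trans ?_ h
    rintro _ ⟨v, hv, rfl⟩
    exact E_alg_RS X hX hv

/-- The residues of level `q` as rational numbers. -/
def Xq (q : ℕ) : Set ℚ := {x | ∃ a : ℕ, 1 ≤ a ∧ a < q ∧ x = (a : ℚ) / q}

theorem Xq_pos {q : ℕ} : ∀ x ∈ Xq q, 0 < x ∧ x < 1 := by
  rintro _ ⟨a, h1, h2, rfl⟩
  have hq : (0 : ℚ) < q := by exact_mod_cast (by omega : 0 < q)
  have ha : (0 : ℚ) < a := by exact_mod_cast h1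
  refine ⟨by positivity, ?_⟩
  rw [div_lt_one hq]
  exact_mod_cast h2

theorem HS_Xq (q : ℕ) (hq : 0 < q) : HS (Xq q) = Lv q := by
  have : NeZero q := ⟨hq.ne'⟩
  apply le_antisymm
  · unfold HS
    rw [Submodule.span_le]
    rintro _ ⟨_, ⟨a, -, -, rfl⟩, rfl⟩
    exact H_mem q a
  · unfold Lv
    rw [Submodule.span_le]
    rintro _ ⟨a, rfl⟩
    change H ⊥ ((a : ℚ) / q) ∈ HS (Xq q)
    rw [H_mod]
    by_cases h0 : (a : ZMod q) = 0
    · rw [h0, hv_zero]
      exact Submodule.zero_mem _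
    · have h1 : ((a : ZMod q)).val ≠ 0 := (ZMod.val_ne_zero _).2 h0
      refine Submodule.subset_span ⟨(((a : ZMod q)).val : ℚ) / q,
        ⟨((a : ZMod q)).val, by omega, ZMod.val_lt _, rfl⟩, rfl⟩

theorem PA_iff_Lv (q : ℕ) (hq : 0 < q) : PA q ↔ PE (Lv q : Set V) := by
  rw [← HS_Xq q hq, ← PE_iff _ Xq_pos]
  unfold PA RS
  have h1 : (range fun a : {a : ℕ // 1 ≤ a ∧ a < q} => ((Rr q a : ℝ) : ℂ)) =
      (fun x : ℚ => ((R x : ℝ) : ℂ)) '' Xq q := by
    apply Subset.antisymm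
    · rintro _ ⟨a, rfl⟩
      refine ⟨((a : ℕ) : ℚ) / q, ⟨a, a.2.1, a.2.2, rfl⟩, ?_⟩
      simp only [R_eq]
    · rintro _ ⟨_, ⟨a, h1, h2, rfl⟩, rfl⟩
      refine ⟨⟨a, h1, h2⟩, ?_⟩
      simp only [R_eq]
  rw [h1]

/-- The space of all classes. -/
noncomputable def Ma : Submodule ℚ V := Submodule.span ℚ (range (H ⊥))

theorem mem_Lv {v : V} (hv : v ∈ Ma) : ∃ N : ℕ, 0 < N ∧ v ∈ Lv N := by
  unfold Ma at hv
  induction hv using Submodule.span_induction with
  | mem x hx =>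
    obtain ⟨y, rfl⟩ := hx
    by_cases h0 : Int.fract y = 0
    · refine ⟨1, one_pos, ?_⟩
      have h1 : H ⊥ y = (0 : V) := by
        unfold H
        rw [if_pos h0]
      rw [h1]
      exact Submodule.zero_mem _
    · have h1 : 0 < Int.fract y := lt_of_le_of_ne (Int.fract_nonneg y) (Ne.symm h0)
      obtain ⟨q, a, ha, haq, hx⟩ := exists_frac h1 (Int.fract_lt_one y)
      refine ⟨q, by omega, ?_⟩
      have h2 : H ⊥ y = H ⊥ (Int.fract y) := by
        unfold H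
        rw [Int.fract_fract]
      rw [h2, hx]
      exact H_mem q a
  | zero => exact ⟨1, one_pos, Submodule.zero_mem _⟩
  | add x y _ _ hx hy =>
    obtain ⟨N1, hN1, h1⟩ := hx
    obtain ⟨N2, hN2, h2⟩ := hy
    have hN := Nat.mul_pos hN1 hN2
    exact ⟨N1 * N2, hN, Submodule.add_mem _ (Lv_mono hN (Dvd.intro _ rfl) h1)
      (Lv_mono hN (Dvd.intro_left _ rfl) h2)⟩
  | smul c x _ hx =>
    obtain ⟨N1, hN1, h1⟩ := hx
    exact ⟨N1, hN1, Submodule.smul_mem _ _ h1⟩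

theorem finite_Lv {T : Set V} (hT : T.Finite) (h : T ⊆ (Ma : Set V)) :
    ∃ N : ℕ, 0 < N ∧ T ⊆ (Lv N : Set V) := by
  induction T, hT using Set.Finite.induction_on with
  | empty => exact ⟨1, one_pos, empty_subset _⟩
  | insert _ _ ih =>
    obtain ⟨N1, hN1, h1⟩ := ih fun x hx => h (mem_insert_of_mem _ hx)
    obtain ⟨N2, hN2, h2⟩ := mem_Lv (h (mem_insert _ _))
    have hN := Nat.mul_pos hN1 hN2
    refine ⟨N1 * N2, hN, ?_⟩
    rintro x (rfl | hx)
    · exact Lv_mono hN (Dvd.intro_left _ rfl) h2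
    · exact Lv_mono hN (Dvd.intro _ rfl) (h1 hx)

theorem Lv_le_Ma (N : ℕ) : Lv N ≤ Ma := by
  unfold Lv Ma
  refine Submodule.span_mono ?_
  rintro _ ⟨a, rfl⟩
  exact mem_range_self _

theorem HS_le_Ma (X : Set ℚ) : HS X ≤ Ma := by
  unfold HS Ma
  exact Submodule.span_mono (image_subset_range _ _)

/-- Algebraicity of `π` only needs finitely many classes. -/
theorem PE_finite {T : Set V} (h : PE T) : ∃ T' ⊆ T, T'.Finite ∧ PE T' := by
  classical
  have h1 : (Real.pi : ℂ) ∈ (AlgebraicIndependent.matroid ℚ ℂ).closure (E '' T) := by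
    rw [AlgebraicIndependent.matroid_closure_eq, SetLike.mem_coe, Subalgebra.mem_algebraicClosure]
    exact h
  obtain ⟨I, hI, hfin, -, hcl⟩ := Matroid.exists_mem_finite_closure_of_mem_closure h1
  have h2 : ((hfin.toFinset : Finset ℂ) : Set ℂ) ⊆ E '' T := by
    rw [Finite.coe_toFinset]
    exact hI
  obtain ⟨T', hT', himg⟩ := Finset.subset_set_image_iff.1 h2
  refine ⟨T', hT', T'.finite_toSet, ?_⟩
  rw [AlgebraicIndependent.matroid_closure_eq, SetLike.mem_coe,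
    Subalgebra.mem_algebraicClosure] at hcl
  have h3 : E '' (T' : Set V) = I := by
    rw [← Finset.coe_image, himg, Finite.coe_toFinset]
  unfold PE
  rw [h3]
  exact hcl

/-- **The smallest space.** -/
theorem exists_W (hall : ∀ q : ℕ, 2 < q → HasInd q (q.totient / 2)) (hex : PE (Ma : Set V)) :
    ∃ W : Submodule ℚ V, (∃ N : ℕ, 0 < N ∧ W ≤ Lv N) ∧
      ∀ U : Submodule ℚ V, U ≤ Ma → (PE (U : Set V) ↔ W ≤ U) := by
  classical
  have key : ∀ U : Submodule ℚ V, U ≤ Ma → PE (U : Set V) →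
      ∃ N : ℕ, 0 < N ∧ ∃ U' : Submodule ℚ V, U' ≤ U ∧ U' ≤ Lv N ∧ PE (U' : Set V) := by
    intro U hU hp
    obtain ⟨T, hT, hfin, hpT⟩ := PE_finite hp
    obtain ⟨N, hN, hTN⟩ := finite_Lv hfin (hT.trans hU)
    exact ⟨N, hN, Submodule.span ℚ T, Submodule.span_le.2 hT, Submodule.span_le.2 hTN,
      PE_of_le (fun v hv => Submodule.subset_span (Submodule.subset_span hv)) hpT⟩
  have hex' : ∃ n : ℕ, ∃ N : ℕ, 0 < N ∧ ∃ U : Submodule ℚ V, U ≤ Lv N ∧ finrank ℚ U = n ∧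
      PE (U : Set V) := by
    obtain ⟨N, hN, U', -, h2, h3⟩ := key Ma le_rfl hex
    exact ⟨_, N, hN, U', h2, rfl, h3⟩
  obtain ⟨N0, hN0, W, hW1, hW2, hW3⟩ := Nat.find_spec hex'
  refine ⟨W, ⟨N0, hN0, hW1⟩, ?_⟩
  intro U hU
  constructor
  · intro hp
    obtain ⟨N, hN, U', hU'1, hU'2, hU'3⟩ := key U hU hp
    have hL : 2 < 3 * (N * N0) := by
      have := Nat.mul_pos hN hN0
      omega
    have h1 := exch (3 * (N * N0)) hL (hall _ hL) W U'
      (hW1.trans (Lv_mono (by omega) ⟨3 * N, by ring⟩))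
      (hU'2.trans (Lv_mono (by omega) ⟨3 * N0, by ring⟩)) hW3 hU'3
    have h2 : Nat.find hex' ≤ finrank ℚ (W ⊓ U' : Submodule ℚ V) :=
      Nat.find_min' hex' ⟨N0, hN0, _, inf_le_left.trans hW1, rfl, h1⟩
    have : NeZero N0 := ⟨hN0.ne'⟩
    have hfN : FiniteDimensional ℚ (Lv N0) := Lv_fin N0
    have hfW : FiniteDimensional ℚ W := Submodule.finiteDimensional_of_le hW1
    have h3 : W ⊓ U' = W := by
      apply Submodule.eq_of_le_of_finrank_le inf_le_left
      rw [hW2]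
      exact h2
    exact (inf_eq_left.1 h3).trans hU'1
  · intro h
    exact PE_mono h hW3

theorem E_zero : IsAlgebraic (Algebra.adjoin ℚ (∅ : Set ℂ)) (E 0) := by
  apply alg_adjoin
  rw [E_alg_iff, map_zero]

theorem not_PE_bot : ¬ PE ((⊥ : Submodule ℚ V) : Set V) := by
  intro h
  have h1 : IsAlgebraic (Algebra.adjoin ℚ (∅ : Set ℂ)) (Real.pi : ℂ) := by
    refine cl_trans ?_ h
    rintro _ ⟨v, hv, rfl⟩
    have hv0 : v = 0 := hv
    rw [hv0]
    exact E_zero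
  have h2 : (∅ : Set ℂ) = E '' (∅ : Set V) := (image_empty _).symm
  rw [h2] at h1
  exact pi_tr (cl_empty E _ h1)

end Pool.Agent.Helper98.WS
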