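import Pool.Agent.Helper17.LR.Cv

/-!
# MP_274814_nt: the smallest space of Gamma monomials over which pi is algebraic

`V` is the rational vector space of the real numbers modulo the logarithms of algebraic numbers.
-/

set_option autoImplicit false

namespace Pool.Agent.Helper98.WS

open Set Module Pool.Agent.Helper24.LU Pool.Agent.Helper24.GammaTr Pool.Agent.Helper17.LR

/-- The space of classes. -/
abbrev V := ℝ ⧸ CC (⊥ : IntermediateField ℚ ℂ)

/-- A number with a given class. -/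
noncomputable def E (v : V) : ℂ := ((Real.exp (Quotient.out v) : ℝ) : ℂ)

theorem E_alg_iff (K : IntermediateField ℚ ℂ) (v : V) : IsAlgebraic K (E v) ↔ qm K v = 0 := by
  have h : (Submodule.Quotient.mk (Quotient.out v) : V) = v := Quotient.out_eq' v
  conv_rhs => rw [← h]
  change _ ↔ (Submodule.Quotient.mk (Quotient.out v) : ℝ ⧸ CC K) = 0
  rw [Submodule.Quotient.mk_eq_zero]
  rfl

/-- A real number whose logarithm has class `v`. -/
theorem exp_alg_iff (K : IntermediateField ℚ ℂ) (y : ℝ) :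
    IsAlgebraic K ((Real.exp y : ℝ) : ℂ) ↔ qm K (Submodule.Quotient.mk y) = 0 := by
  change _ ↔ (Submodule.Quotient.mk y : ℝ ⧸ CC K) = 0
  rw [Submodule.Quotient.mk_eq_zero]
  rfl

theorem alg_span (T : Set V) (K : IntermediateField ℚ ℂ) (hK : ∀ v ∈ T, IsAlgebraic K (E v))
    {v : V} (hv : v ∈ Submodule.span ℚ T) : IsAlgebraic K (E v) := by
  rw [E_alg_iff]
  have h1 : Submodule.span ℚ T ≤ LinearMap.ker (qm K) := by
    rw [Submodule.span_le]
    intro w hw
    rw [SetLike.mem_coe, LinearMap.mem_ker, ← E_alg_iff]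
    exact hK w hw
  exact h1 hv

/-- The classes of level `N`. -/
noncomputable def Lv (N : ℕ) : Submodule ℚ V :=
  Submodule.span ℚ (range fun a : ℕ => H ⊥ ((a : ℚ) / N))

theorem H_mem (N a : ℕ) : H ⊥ ((a : ℚ) / N) ∈ Lv N := by
  unfold Lv
  exact Submodule.subset_span ⟨a, rfl⟩

theorem H_add_nat (x : ℚ) (n : ℕ) : H ⊥ (x + n) = H ⊥ x := by
  induction n with
  | zero => rw [Nat.cast_zero, add_zero]
  | succ n ih => rw [Nat.cast_succ, ← add_assoc, H_per, ih]

theorem H_mod (N : ℕ) [NeZero N] (a : ℕ) : H ⊥ ((a : ℚ) / N) = hv N (a : ZMod N) := by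
  unfold hv
  rw [ZMod.val_natCast]
  have hN : (N : ℚ) ≠ 0 := by exact_mod_cast NeZero.ne N
  have h1 : (a : ℚ) / N = ((a % N : ℕ) : ℚ) / N + ((a / N : ℕ) : ℚ) := by
    have h2 : (a : ℚ) = ((a % N : ℕ) : ℚ) + N * ((a / N : ℕ) : ℚ) := by
      exact_mod_cast (Nat.mod_add_div a N).symm
    have h3 : (N : ℚ) * ((a / N : ℕ) : ℚ) / N = ((a / N : ℕ) : ℚ) := mul_div_cancel_left₀ _ hN
    calc (a : ℚ) / N = (((a % N : ℕ) : ℚ) + N * ((a / N : ℕ) : ℚ)) / N := by rw [← h2]
      _ = _ := by rw [add_div, h3]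
  rw [h1, H_add_nat]

theorem Lv_eq (N : ℕ) [NeZero N] : Lv N = Submodule.span ℚ (range (hv N)) := by
  unfold Lv
  congr 1
  apply Subset.antisymm
  · rintro _ ⟨a, rfl⟩
    exact ⟨(a : ZMod N), (H_mod N a).symm⟩
  · rintro _ ⟨a, rfl⟩
    exact ⟨a.val, rfl⟩

theorem Lv_mono {d N : ℕ} (hN : 0 < N) (h : d ∣ N) : Lv d ≤ Lv N := by
  obtain ⟨e, rfl⟩ := h
  have he : (e : ℚ) ≠ 0 := by
    have : e ≠ 0 := by
      rintro rfl
      rw [mul_zero] at hN
      omega
    exact_mod_cast this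
  refine Submodule.span_mono ?_
  rintro _ ⟨a, rfl⟩
  refine ⟨a * e, ?_⟩
  change H ⊥ (((a * e : ℕ) : ℚ) / ((d * e : ℕ) : ℚ)) = _
  push_cast
  rw [mul_div_mul_right _ _ he]

theorem Lv_fin (N : ℕ) [NeZero N] : FiniteDimensional ℚ (Lv N) := by
  rw [Lv_eq]
  exact FiniteDimensional.span_of_finite ℚ (Set.finite_range _)

theorem Lv_rank (N : ℕ) (hN : 2 < N) : finrank ℚ (Lv N) ≤ N.totient / 2 := by
  have : NeZero N := ⟨by omega⟩
  rw [Lv_eq]
  exact rank_OD N hN (hv N) (OD_hv N)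

/-- **Linearly independent classes give algebraically independent numbers.** -/
theorem indep_E (N : ℕ) (hN : 2 < N) (h : HasInd N (N.totient / 2)) (T : Set V)
    (hT : T ⊆ (Lv N : Set V)) (hli : LinearIndepOn ℚ id T) :
    AlgebraicIndependent ℚ (fun v : T => E v) := by
  classical
  have : NeZero N := ⟨by omega⟩
  have hfin : FiniteDimensional ℚ (Lv N) := Lv_fin N
  obtain ⟨b, hb, hTb, hspan, hlb⟩ := exists_linearIndepOn_extension hli hT
  have hlb' : LinearIndependent ℚ (fun v : b => (⟨v, hb v.2⟩ : Lv N)) := by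
    apply LinearIndependent.of_comp (Submodule.subtype _)
    exact hlb
  have hbf : Finite b := hlb'.finite
  have : Fintype b := Fintype.ofFinite b
  have hcard : Fintype.card b ≤ N.totient / 2 :=
    hlb'.fintype_card_le_finrank.trans (Lv_rank N hN)
  obtain ⟨f, hf⟩ := h.mono hcard
  have h1 : AlgebraicIndependent ℚ (fun v : b => E v) := by
    refine indep_of_card _ (fun a : {a : ℕ // 1 ≤ a ∧ a < N} => ((Rr N a : ℝ) : ℂ)) ?_ f
      (real_iff.2 hf)
    intro a
    apply alg_adjoin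
    set K := IntermediateField.adjoin ℚ (range fun v : b => E v) with hK
    rw [← H_zero_iff K a N a.2.1 a.2.2, ← qm_H, ← E_alg_iff]
    refine alg_span b K (fun v hv => isAlg_of_mem K (IntermediateField.subset_adjoin ℚ _
      (mem_range_self (⟨v, hv⟩ : b)))) ?_
    have h2 := hspan (mem_image_of_mem id (H_mem N a))
    rwa [image_id] at h2
  exact h1.comp (fun v : T => (⟨v, hTb v.2⟩ : b)) (by
    intro x y hxy
    exact Subtype.ext (congrArg (fun z : b => (z : V)) hxy))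

/-- `π` is algebraic over the numbers with classes in `T`. -/
def PE (T : Set V) : Prop := IsAlgebraic (Algebra.adjoin ℚ (E '' T)) (Real.pi : ℂ)

theorem PE_of_le {T T' : Set V} (h : ∀ v ∈ T, v ∈ Submodule.span ℚ T') (hp : PE T) : PE T' := by
  refine cl_trans ?_ hp
  rintro _ ⟨v, hv, rfl⟩
  apply alg_adjoin
  exact alg_span T' (IntermediateField.adjoin ℚ (E '' T')) (fun w hw => isAlg_of_mem _
    (IntermediateField.subset_adjoin ℚ _ (mem_image_of_mem E hw))) (h v hv)

theorem PE_mono {U U' : Submodule ℚ V} (h : U ≤ U') (hp : PE (U : Set V)) : PE (U' : Set V) :=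
  PE_of_le (fun _ hv => Submodule.subset_span (h hv)) hp

/-- **Exchange for subspaces.** -/
theorem exch (N : ℕ) (hN : 2 < N) (h : HasInd N (N.totient / 2)) (U1 U2 : Submodule ℚ V)
    (h1 : U1 ≤ Lv N) (h2 : U2 ≤ Lv N) (hp1 : PE (U1 : Set V)) (hp2 : PE (U2 : Set V)) :
    PE ((U1 ⊓ U2 : Submodule ℚ V) : Set V) := by
  classical
  obtain ⟨b0, hb0, -, hsp0, hl0⟩ := exists_linearIndepOn_extension
    (linearIndepOn_empty ℚ (id : V → V)) (empty_subset ((U1 ⊓ U2 : Submodule ℚ V) : Set V))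
  obtain ⟨b1, hb1, hb01, hsp1, hl1⟩ := exists_linearIndepOn_extension hl0
    (hb0.trans (show ((U1 ⊓ U2 : Submodule ℚ V) : Set V) ⊆ (U1 : Set V) from fun x hx => hx.1))
  obtain ⟨b2, hb2, hb02, hsp2, hl2⟩ := exists_linearIndepOn_extension hl0
    (hb0.trans (show ((U1 ⊓ U2 : Submodule ℚ V) : Set V) ⊆ (U2 : Set V) from fun x hx => hx.2))
  rw [image_id, image_id] at hsp0 hsp1 hsp2
  have hq1 : PE b1 := PE_of_le (fun v hv => hsp1 hv) hp1
  have hq2 : PE b2 := PE_of_le (fun v hv => hsp2 hv) hp2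
  have hli : LinearIndepOn ℚ id (b1 ∪ (b2 \ b0)) := by
    apply hl1.union (hl2.mono sdiff_subset)
    rw [image_id, image_id, Submodule.disjoint_def]
    intro x hx1 hx2
    have e1 : x ∈ U1 := (Submodule.span_le.2 hb1) hx1
    have e2 : x ∈ U2 := (Submodule.span_le.2 (sdiff_subset.trans hb2)) hx2
    have hx3 : x ∈ Submodule.span ℚ b0 := hsp0 ⟨e1, e2⟩
    have hd : Disjoint (Submodule.span ℚ b0) (Submodule.span ℚ (b2 \ b0)) := by
      have e1 := LinearIndependent.disjoint_span_image (v := fun x : b2 => (x : V)) hl2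
        (s := {x | (x : V) ∈ b0}) (t := {x | (x : V) ∉ b0})
        (by rw [Set.disjoint_left]; intro x hx hx'; exact hx' hx)
      have e2 : (fun x : b2 => (x : V)) '' {x | (x : V) ∈ b0} = b0 := by
        apply Subset.antisymm
        · rintro _ ⟨x, hx, rfl⟩
          exact hx
        · intro x hx
          exact ⟨⟨x, hb02 hx⟩, hx, rfl⟩
      have e3 : (fun x : b2 => (x : V)) '' {x | (x : V) ∉ b0} = b2 \ b0 := by
        apply Subset.antisymm
        · rintro _ ⟨x, hx, rfl⟩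
          exact ⟨x.2, hx⟩
        · rintro x ⟨hx1, hx2⟩
          exact ⟨⟨x, hx1⟩, hx2, rfl⟩
      rw [e2, e3] at e1
      exact e1
    exact Submodule.disjoint_def.1 hd x hx3 hx2
  have hun : b1 ∪ (b2 \ b0) = b1 ∪ b2 := by
    ext x
    simp only [mem_union, mem_sdiff]
    constructor
    · rintro (hx | hx)
      · exact Or.inl hx
      · exact Or.inr hx.1
    · rintro (hx | hx)
      · exact Or.inl hx
      · by_cases hx0 : x ∈ b0
        · exact Or.inl (hb01 hx0)
        · exact Or.inr ⟨hx, hx0⟩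
  rw [hun] at hli
  have hai := indep_E N hN h _ (union_subset (hb1.trans h1) (hb2.trans h2)) hli
  have himg : ∀ b : Set V, b ⊆ b1 ∪ b2 →
      (fun a : (b1 ∪ b2 : Set V) => E a) '' {a | (a : V) ∈ b} = E '' b := by
    intro b hb
    apply Subset.antisymm
    · rintro _ ⟨x, hx, rfl⟩
      exact ⟨x, hx, rfl⟩
    · rintro _ ⟨x, hx, rfl⟩
      exact ⟨⟨x, hb hx⟩, hx, rfl⟩
  have hfin := inter_cl _ hai (Real.pi : ℂ) {a | (a : V) ∈ b1} {a | (a : V) ∈ b2}
    (by rw [himg b1 subset_union_left]; exact hq1) (by rw [himg b2 subset_union_right]; exact hq2)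
  have hint : {a : (b1 ∪ b2 : Set V) | (a : V) ∈ b1} ∩ {a : (b1 ∪ b2 : Set V) | (a : V) ∈ b2} =
      {a : (b1 ∪ b2 : Set V) | (a : V) ∈ b1 ∩ b2} := rfl
  rw [hint, himg (b1 ∩ b2) (inter_subset_left.trans subset_union_left)] at hfin
  refine PE_of_le (T := b1 ∩ b2) ?_ hfin
  rintro v ⟨hv1, hv2⟩
  exact Submodule.subset_span ⟨hb1 hv1, hb2 hv2⟩

end Pool.Agent.Helper98.WS
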