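import Pool.Agent.Helper98.WS.Mi

/-!
# MP_274814_nt: pi and all values of the Gamma function at rational numbers, structure theorem
-/

set_option autoImplicit false

namespace Pool.Agent.Helper98.WS

open Set Module Pool.Agent.Helper24.LU Pool.Agent.Helper24.GammaTr Pool.Agent.Helper17.LR

/-- The monomial with exponents `m` in the ratios of level `f`. -/
noncomputable def mon (f : ℕ) (m : ℕ → ℤ) : ℝ := ∏ a ∈ Finset.Ico 1 f, R ((a : ℚ) / f) ^ m a

/-- Its class. -/
noncomputable def cla (f : ℕ) (m : ℕ → ℤ) : V :=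
  ∑ a ∈ Finset.Ico 1 f, (m a : ℚ) • H ⊥ ((a : ℚ) / f)

theorem mon_alg_iff (K : IntermediateField ℚ ℂ) (f : ℕ) (m : ℕ → ℤ) :
    IsAlgebraic K ((mon f m : ℝ) : ℂ) ↔ qm K (cla f m) = 0 := by
  have hS : ∀ a ∈ Finset.Ico 1 f, 1 ≤ a ∧ a < f := fun a ha => Finset.mem_Ico.1 ha
  have h1 : cla f m =
      Submodule.Quotient.mk (∑ a ∈ Finset.Ico 1 f, (m a : ℝ) * Real.log (Rr f a)) := by
    unfold cla
    rw [← Submodule.mkQ_apply, map_sum]
    refine Finset.sum_congr rfl fun a ha => ?_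
    rw [Pool.Agent.Helper24.CR.H_eq (hS a ha).1 (hS a ha).2, Submodule.mkQ_apply,
      ← Submodule.Quotient.mk_smul]
    congr 1
  have h2 : Real.exp (∑ a ∈ Finset.Ico 1 f, (m a : ℝ) * Real.log (Rr f a)) = mon f m := by
    unfold mon
    rw [Real.exp_sum]
    refine Finset.prod_congr rfl fun a ha => ?_
    rw [R_eq, ← Real.rpow_intCast,
      Real.rpow_def_of_pos (Pool.Agent.Helper24.CR.Rr_pos (hS a ha).1 (hS a ha).2)]
    congr 1
    ring
  rw [h1, ← exp_alg_iff, h2]

/-- A multiple of every class of level `f` is the class of a monomial. -/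
theorem exists_mon (f : ℕ) (hf : 0 < f) {v : V} (hv : v ∈ Lv f) :
    ∃ (D : ℤ) (m : ℕ → ℤ), D ≠ 0 ∧ cla f m = (D : ℚ) • v := by
  classical
  rw [← HS_Xq f hf] at hv
  have h1 : H ⊥ '' Xq f = (fun a : ℕ => H ⊥ ((a : ℚ) / f)) '' (Finset.Ico 1 f : Finset ℕ) := by
    apply Subset.antisymm
    · rintro _ ⟨_, ⟨a, ha1, ha2, rfl⟩, rfl⟩
      exact ⟨a, by rw [SetLike.mem_coe, Finset.mem_Ico]; exact ⟨ha1, ha2⟩, rfl⟩
    · rintro _ ⟨a, ha, rfl⟩
      rw [SetLike.mem_coe, Finset.mem_Ico] at ha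
      exact ⟨_, ⟨a, ha.1, ha.2, rfl⟩, rfl⟩
  unfold HS at hv
  rw [h1, Submodule.mem_span_image_finset_iff_exists_fun] at hv
  obtain ⟨c, hc⟩ := hv
  obtain ⟨b, hb⟩ := IsLocalization.exist_integer_multiples_of_finset (nonZeroDivisors ℤ)
    (Finset.univ.image c)
  have hb' : ∀ i, ∃ z : ℤ, (z : ℚ) = ((b : ℤ) : ℚ) * c i := by
    intro i
    obtain ⟨z, hz⟩ := hb (c i) (Finset.mem_image_of_mem c (Finset.mem_univ i))
    refine ⟨z, ?_⟩
    have h2 : (z : ℚ) = (b : ℤ) • c i := hz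
    rw [h2, zsmul_eq_mul]
  choose z hz using hb'
  refine ⟨(b : ℤ), fun a => if ha : a ∈ Finset.Ico 1 f then z ⟨a, ha⟩ else 0,
    nonZeroDivisors.ne_zero b.2, ?_⟩
  unfold cla
  rw [← hc, Finset.smul_sum, ← Finset.sum_coe_sort (Finset.Ico 1 f)]
  refine Finset.sum_congr rfl fun a _ => ?_
  have h3 : (if ha : (a : ℕ) ∈ Finset.Ico 1 f then z ⟨a, ha⟩ else 0) = z a := dif_pos a.2
  simp only [h3]
  rw [hz, mul_smul]

/-- A basis of a space of classes of level `f` consisting of classes of monomials. -/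
theorem exists_basis (f : ℕ) (hf : 0 < f) (W : Submodule ℚ V) (hW : W ≤ Lv f) :
    ∃ m : Fin (finrank ℚ W) → ℕ → ℤ, LinearIndependent ℚ (fun i => cla f (m i)) ∧
      Submodule.span ℚ (range fun i => cla f (m i)) = W := by
  have : NeZero f := ⟨hf.ne'⟩
  have hfN : FiniteDimensional ℚ (Lv f) := Lv_fin f
  have hfW : FiniteDimensional ℚ W := Submodule.finiteDimensional_of_le hW
  let b := Module.finBasis ℚ W
  have h1 : ∀ i, ∃ (D : ℤ) (m : ℕ → ℤ), D ≠ 0 ∧ cla f m = (D : ℚ) • ((b i : W) : V) :=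
    fun i => exists_mon f hf (hW (b i).2)
  choose D m hD hm using h1
  have hD' : ∀ i, ((D i : ℤ) : ℚ) ≠ 0 := fun i => by exact_mod_cast hD i
  have hb : LinearIndependent ℚ (fun i => ((b i : W) : V)) :=
    b.linearIndependent.map' W.subtype (Submodule.ker_subtype W)
  have e1 : (fun i => cla f (m i)) =
      (fun i => Units.mk0 ((D i : ℤ) : ℚ) (hD' i)) • fun i => ((b i : W) : V) := by
    funext i
    rw [hm i]
    rfl
  refine ⟨m, ?_, ?_⟩
  · rw [e1]
    exact hb.units_smul _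
  · apply le_antisymm
    · rw [Submodule.span_le]
      rintro _ ⟨i, rfl⟩
      change cla f (m i) ∈ W
      rw [hm i]
      exact Submodule.smul_mem _ _ (b i).2
    · intro w hw
      have h2 : (⟨w, hw⟩ : W) ∈ Submodule.span ℚ (range b) := by
        rw [b.span_eq]
        exact Submodule.mem_top
      have h3 : w ∈ (Submodule.span ℚ (range b)).map W.subtype := ⟨_, h2, rfl⟩
      rw [Submodule.map_span] at h3
      refine (Submodule.span_le.2 ?_) h3
      rintro _ ⟨_, ⟨i, rfl⟩, rfl⟩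
      have h4 : ((b i : W) : V) = ((D i : ℤ) : ℚ)⁻¹ • cla f (m i) := by
        rw [hm i, smul_smul, inv_mul_cancel₀ (hD' i), one_smul]
      change ((b i : W) : V) ∈ Submodule.span ℚ (range fun i => cla f (m i))
      rw [h4]
      exact Submodule.smul_mem _ _ (Submodule.subset_span ⟨i, rfl⟩)

/-- Monomials with linearly independent classes are algebraically independent. -/
theorem mon_ai (hall : ∀ q : ℕ, 2 < q → HasInd q (q.totient / 2)) (f : ℕ) (hf : 0 < f) {n : ℕ}
    (m : Fin n → ℕ → ℤ) (hli : LinearIndependent ℚ (fun i => cla f (m i))) :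
    AlgebraicIndependent ℚ (fun i => mon f (m i)) := by
  have hmem : ∀ i, cla f (m i) ∈ Lv f := fun i =>
    Submodule.sum_mem _ fun a _ => Submodule.smul_mem _ _ (H_mem f a)
  have hN : 2 < 3 * f := by omega
  have h1 := indep_E (3 * f) hN (hall _ hN) (range fun i => cla f (m i))
    (by
      rintro _ ⟨i, rfl⟩
      exact Lv_mono (by omega) ⟨3, by ring⟩ (hmem i))
    ((linearIndepOn_id_range_iff hli.injective).2 hli)
  have h2 := h1.comp (fun i => (⟨cla f (m i), mem_range_self i⟩ :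
      range fun i => cla f (m i))) (by
    intro i j hij
    exact hli.injective (congrArg Subtype.val hij))
  rw [← real_iff]
  have hc : Fintype.card (Fin n) = n := Fintype.card_fin n
  refine indep_of_card (fun i => ((mon f (m i) : ℝ) : ℂ)) (fun i : Fin n => E (cla f (m i))) ?_
    (Fin.cast hc) ?_
  · intro j
    apply alg_adjoin
    rw [E_alg_iff, ← mon_alg_iff]
    exact isAlg_of_mem _ (IntermediateField.subset_adjoin ℚ _ (mem_range_self j))
  · exact h2.comp _ (Fin.cast_injective hc)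

/-- **Structure theorem.**  Either `π` is transcendental over the field of all the ratios, or `π` is
algebraic over algebraically independent monomials `t_1, .., t_n`, `n ≥ 1`, such that `π` is
algebraic over a family of ratios exactly if all the `t_i` are. -/
theorem structure_thm (hall : ∀ q : ℕ, 2 < q → HasInd q (q.totient / 2)) :
    (∀ X : Set ℚ, (∀ x ∈ X, 0 < x ∧ x < 1) →
      ¬ IsAlgebraic (Algebra.adjoin ℚ (RS X)) (Real.pi : ℂ)) ∨
    ∃ f : ℕ, 2 < f ∧ (∀ q : ℕ, 0 < q → (PA q ↔ f ∣ q)) ∧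
      ∃ (n : ℕ) (m : Fin n → ℕ → ℤ), 0 < n ∧ AlgebraicIndependent ℚ (fun i => mon f (m i)) ∧
        IsAlgebraic (Algebra.adjoin ℚ (range fun i => ((mon f (m i) : ℝ) : ℂ))) (Real.pi : ℂ) ∧
        ∀ X : Set ℚ, (∀ x ∈ X, 0 < x ∧ x < 1) →
          (IsAlgebraic (Algebra.adjoin ℚ (RS X)) (Real.pi : ℂ) ↔
            ∀ i, IsAlgebraic (Algebra.adjoin ℚ (RS X)) ((mon f (m i) : ℝ) : ℂ)) := by
  by_cases hex : PE (Ma : Set V)
  · right
    obtain ⟨W, ⟨N, hN, hWN⟩, hW⟩ := exists_W hall hex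
    obtain ⟨f, hf1, hf2, hf⟩ := exists_level hall
    have hPN : PA N := (PA_iff_Lv N hN).2 ((hW _ (Lv_le_Ma N)).2 hWN)
    have hfN : f ∣ N := (hf N hN).1 hPN
    have hf0 : 0 < f := Nat.pos_of_dvd_of_pos hfN hN
    have hPf : PA f := (hf f hf0).2 dvd_rfl
    have hWf : W ≤ Lv f := (hW _ (Lv_le_Ma f)).1 ((PA_iff_Lv f hf0).1 hPf)
    obtain ⟨m, hm1, hm2⟩ := exists_basis f hf0 W hWf
    have hWW : PE (W : Set V) := (hW W (hWN.trans (Lv_le_Ma N))).2 le_rfl
    refine ⟨f, by omega, hf, finrank ℚ W, m, ?_, mon_ai hall f hf0 m hm1, ?_, ?_⟩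
    · have : NeZero f := ⟨hf0.ne'⟩
      have hfN : FiniteDimensional ℚ (Lv f) := Lv_fin f
      have hfW : FiniteDimensional ℚ W := Submodule.finiteDimensional_of_le hWf
      rw [Module.finrank_pos_iff, Submodule.nontrivial_iff_ne_bot]
      rintro rfl
      exact not_PE_bot ((hW ⊥ bot_le).2 le_rfl)
    · refine cl_trans ?_ hWW
      rintro _ ⟨w, hw, rfl⟩
      apply alg_adjoin
      refine alg_span (range fun i => cla f (m i))
        (IntermediateField.adjoin ℚ (range fun i => ((mon f (m i) : ℝ) : ℂ))) ?_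
        (by rw [hm2]; exact hw)
      rintro _ ⟨i, rfl⟩
      change IsAlgebraic _ (E (cla f (m i)))
      rw [E_alg_iff, ← mon_alg_iff]
      exact isAlg_of_mem _ (IntermediateField.subset_adjoin ℚ _ (mem_range_self i))
    · intro X hX
      have h1 : IsAlgebraic (Algebra.adjoin ℚ (RS X)) (Real.pi : ℂ) ↔ W ≤ HS X := by
        rw [PE_iff X hX, hW _ (HS_le_Ma X)]
      constructor
      · intro h2 i
        have h3 : cla f (m i) ∈ HS X := h1.1 h2 (hm2 ▸ Submodule.subset_span ⟨i, rfl⟩)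
        apply alg_adjoin
        rw [mon_alg_iff, ← E_alg_iff]
        exact alg_span (H ⊥ '' X) (IntermediateField.adjoin ℚ (RS X)) (by
          rintro _ ⟨x, hx, rfl⟩
          rw [E_alg_iff, qm_H, H_R _ (hX x hx).1 (hX x hx).2]
          exact isAlg_of_mem _ (IntermediateField.subset_adjoin ℚ _ (mem_image_of_mem _ hx))) h3
      · intro h2
        refine cl_trans ?_ hWW
        rintro _ ⟨w, hw, rfl⟩
        apply alg_adjoin
        refine alg_span (range fun i => cla f (m i)) (IntermediateField.adjoin ℚ (RS X)) ?_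
          (by rw [hm2]; exact hw)
        rintro _ ⟨i, rfl⟩
        change IsAlgebraic _ (E (cla f (m i)))
        rw [E_alg_iff, ← mon_alg_iff]
        exact adjoin_alg _ (h2 i)
  · left
    intro X hX h
    rw [PE_iff X hX] at h
    exact hex (PE_mono (HS_le_Ma X) h)

end Pool.Agent.Helper98.WS
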